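import Pool.Agent.V11326.CycleEx

/-!
# The product condition does not imply total variation cutoff for symmetric walks on cycles
-/

open Finset Filter Topology

namespace Pool.Agent.Results.MP_7e070a_pr.CycleProductNoCutoff

/-- A cycle `ℤ/n` with `n ≥ 2` and a function `μ` on it (the step law of a convolution walk, see
`Admissible`). -/
structure Walk where
  n : ℕ
  two_le : 2 ≤ n
  μ : ZMod n → ℝ

instance (W : Walk) : NeZero W.n := ⟨by have := W.two_le; omega⟩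

namespace Walk

/-- The law `μ^{*t}` of the walk after `t` steps started at `0`. -/
noncomputable def law (W : Walk) : ℕ → ZMod W.n → ℝ
  | 0 => fun x => if x = 0 then 1 else 0
  | t + 1 => fun x => ∑ y, W.law t y * W.μ (x - y)

/-- `μ` is a symmetric probability measure whose support generates `ℤ/n` and whose walk is
aperiodic. -/
structure Admissible (W : Walk) : Prop where
  nonneg : ∀ x, 0 ≤ W.μ x
  sum_one : ∑ x, W.μ x = 1
  symm : ∀ x, W.μ (-x) = W.μ x
  irred : AddSubgroup.closure {x | 0 < W.μ x} = ⊤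
  aper : ∀ d : ℕ, (∀ t : ℕ, 0 < t → 0 < W.law t 0 → d ∣ t) → d = 1

/-- `‖μ^{*t} - U‖_TV`. -/
noncomputable def tv (W : Walk) (t : ℕ) : ℝ := (1 / 2) * ∑ x, |W.law t x - 1 / (W.n : ℝ)|

/-- The mixing time `T_mix(ε)`. -/
noncomputable def Tmix (W : Walk) (ε : ℝ) : ℕ := sInf {t : ℕ | W.tv t ≤ ε}

/-- The eigenvalue `μ̂(j) = ∑ μ(x) cos(2π j x / n)`. -/
noncomputable def fourier (W : Walk) (j : ZMod W.n) : ℝ :=
  ∑ x, W.μ x * Real.cos (2 * Real.pi * (j.val : ℝ) * (x.val : ℝ) / (W.n : ℝ))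

/-- The largest absolute value of an eigenvalue with index `j ≠ 0`. -/
noncomputable def lamStar (W : Walk) : ℝ := ⨆ j : {j : ZMod W.n // j ≠ 0}, |W.fourier j|

/-- The relaxation time `1 / (1 - λ_*)`. -/
noncomputable def Trel (W : Walk) : ℝ := 1 / (1 - W.lamStar)

end Walk

/-- Total variation cutoff. -/
def HasCutoff (W : ℕ → Walk) : Prop :=
  ∀ ε : ℝ, 0 < ε → ε < 1 / 2 →
    Tendsto (fun k => ((W k).Tmix ε : ℝ) / ((W k).Tmix (1 - ε) : ℝ)) atTop (𝓝 1)

/-- The product condition `T_mix(1/4) / T_rel → ∞`. -/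
def ProductCondition (W : ℕ → Walk) : Prop :=
  Tendsto (fun k => ((W k).Tmix (1 / 4) : ℝ) / (W k).Trel) atTop atTop

open Pool.Agent.V11326

lemma law_eq (W : Walk) (t : ℕ) (x : ZMod W.n) : W.law t x = cpow W.μ t x := by
  induction t generalizing x with
  | zero => rfl
  | succ t ih =>
    simp only [Walk.law, cpow]
    exact Finset.sum_congr rfl fun y _ => by rw [ih]

lemma tv_eq (W : Walk) (t : ℕ) : W.tv t = tvU W.μ t := by
  unfold Walk.tv tvU
  simp only [law_eq, ZMod.card]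

lemma std_eq {n : ℕ} [NeZero n] (j x : ZMod n) : ZMod.stdAddChar (j * x)
    = Complex.exp (((2 * Real.pi * (j.val : ℝ) * (x.val : ℝ) / (n : ℝ) : ℝ) : ℂ) * Complex.I) := by
  have h : j * x = (((j.val * x.val : ℕ) : ℤ) : ZMod n) := by
    push_cast
    rw [ZMod.natCast_zmod_val, ZMod.natCast_zmod_val]
  rw [h, ZMod.stdAddChar_coe]
  congr 1
  push_cast
  ring

lemma fourier_eq (W : Walk) (j : ZMod W.n) :
    W.fourier j = (∑ x, (W.μ x : ℂ) * ZMod.stdAddChar (j * x)).re := by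
  unfold Walk.fourier
  rw [Complex.re_sum]
  refine Finset.sum_congr rfl fun x _ => ?_
  rw [std_eq, Complex.re_ofReal_mul, Complex.exp_ofReal_mul_I_re]

theorem result : ∃ W : ℕ → Walk, (∀ k, (W k).Admissible) ∧
    Tendsto (fun k => (W k).n) atTop atTop ∧ ProductCondition W ∧ ¬ HasCutoff W := by
  have hex : ∀ k : ℕ, ∃ W : Walk, k ≤ W.n ∧ W.Admissible ∧
      W.lamStar ≤ 1 - 1 / ((8 ^ (k + 6) : ℕ) : ℝ) ∧
      0.7 * ((8 ^ (k + 6) * (k + 6) : ℕ) : ℝ) < W.Tmix (1 / 4) ∧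
      0 < W.Tmix (3 / 4) ∧
      (W.Tmix (3 / 4) : ℝ) ≤ 0.3 * ((8 ^ (k + 6) * (k + 6) : ℕ) : ℝ) + 1 := by
    intro k
    obtain ⟨n, hn, _, μ, hLn, hpos, hsum, hsym, hfour, hlow, -, hup, hlim, hzero⟩ :=
      exists_cycle (k + 6) (by omega)
    have hup' := hup
    refine ⟨⟨n, hn, μ⟩, ?_, ?_, ?_, ?_, ?_, ?_⟩
    · show k ≤ n
      omega
    · refine ⟨fun x => (hpos x).le, hsum, hsym, ?_, ?_⟩
      · have : {x | 0 < μ x} = Set.univ := Set.eq_univ_of_forall hpos
        show AddSubgroup.closure {x | 0 < μ x} = ⊤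
        rw [this]
        exact AddSubgroup.closure_univ
      · intro d hd
        have h1 : d ∣ 1 := by
          refine hd 1 one_pos ?_
          rw [law_eq]
          show 0 < ∑ y, cpow μ 0 y * μ (0 - y)
          simpa [cpow] using hpos 0
        exact Nat.dvd_one.mp h1
    · have : Nonempty {j : ZMod n // j ≠ 0} := by
        have : Fact (1 < n) := ⟨by omega⟩
        exact ⟨⟨1, one_ne_zero⟩⟩
      refine ciSup_le fun j => ?_
      rw [fourier_eq]
      exact (Complex.abs_re_le_norm _).trans (hfour j.1 j.2)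
    · have hne : {t : ℕ | (⟨n, hn, μ⟩ : Walk).tv t ≤ 1 / 4}.Nonempty := by
        obtain ⟨t, ht⟩ := hlim (1 / 4) (by norm_num)
        exact ⟨t, by rw [Set.mem_ofPred_eq, tv_eq]; exact ht⟩
      have hmem := Nat.sInf_mem hne
      by_contra hcon
      push Not at hcon
      have := hlow _ hcon
      rw [Set.mem_ofPred_eq, tv_eq] at hmem
      exact absurd hmem (not_le.mpr this)
    · have hne : {t : ℕ | (⟨n, hn, μ⟩ : Walk).tv t ≤ 3 / 4}.Nonempty := by
        obtain ⟨t, ht⟩ := hlim (3 / 4) (by norm_num)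
        exact ⟨t, by rw [Set.mem_ofPred_eq, tv_eq]; exact ht⟩
      have hmem := Nat.sInf_mem hne
      rcases Nat.eq_zero_or_pos ((⟨n, hn, μ⟩ : Walk).Tmix (3 / 4)) with h0 | h0
      · exfalso
        have h0' : sInf {t : ℕ | (⟨n, hn, μ⟩ : Walk).tv t ≤ 3 / 4} = 0 := h0
        rw [h0', Set.mem_ofPred_eq, tv_eq] at hmem
        exact absurd hmem (not_le.mpr hzero)
      · exact h0
    · have hceil : (⟨n, hn, μ⟩ : Walk).Tmix (3 / 4)
          ≤ ⌈0.3 * ((8 ^ (k + 6) * (k + 6) : ℕ) : ℝ)⌉₊ := by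
        apply Nat.sInf_le
        rw [Set.mem_ofPred_eq, tv_eq]
        exact hup _ (Nat.le_ceil _)
      have h2 := Nat.ceil_lt_add_one
        (show (0 : ℝ) ≤ 0.3 * ((8 ^ (k + 6) * (k + 6) : ℕ) : ℝ) by positivity)
      have h3 : ((⟨n, hn, μ⟩ : Walk).Tmix (3 / 4) : ℝ)
          ≤ (⌈0.3 * ((8 ^ (k + 6) * (k + 6) : ℕ) : ℝ)⌉₊ : ℝ) := by exact_mod_cast hceil
      linarith
  choose W hW using hex
  have h8 : ∀ k : ℕ, (1 : ℝ) ≤ ((8 ^ (k + 6) : ℕ) : ℝ) := by
    intro k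
    exact_mod_cast Nat.one_le_pow _ _ (by norm_num)
  refine ⟨W, fun k => (hW k).2.1, ?_, ?_, ?_⟩
  · exact tendsto_atTop_mono (fun k => (hW k).1) tendsto_id
  · refine tendsto_atTop_mono (f := fun k : ℕ => 0.7 * (k : ℝ)) (fun k => ?_) ?_
    · obtain ⟨-, -, hl, h1, -, -⟩ := hW k
      have hk8 := h8 k
      have hinv : 0 < 1 / ((8 ^ (k + 6) : ℕ) : ℝ) := by positivity
      unfold Walk.Trel
      rw [div_div_eq_mul_div, div_one]
      have h2 : (0.7 * ((8 ^ (k + 6) * (k + 6) : ℕ) : ℝ)) * (1 / ((8 ^ (k + 6) : ℕ) : ℝ))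
          ≤ ((W k).Tmix (1 / 4) : ℝ) * (1 - (W k).lamStar) := by
        refine mul_le_mul h1.le (by linarith) hinv.le (by positivity)
      have h3 : (0.7 * ((8 ^ (k + 6) * (k + 6) : ℕ) : ℝ)) * (1 / ((8 ^ (k + 6) : ℕ) : ℝ))
          = 0.7 * ((k : ℝ) + 6) := by
        have : (((8 ^ (k + 6) : ℕ) : ℝ)) ≠ 0 := by linarith
        rw [Nat.cast_mul]
        field_simp
        push_cast
        ring
      linarith
    · exact Tendsto.const_mul_atTop (by norm_num) tendsto_natCast_atTop_atTop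
  · intro hcut
    have h := hcut (1 / 4) (by norm_num) (by norm_num)
    have h2 : ∀ᶠ k in atTop, ((W k).Tmix (1 / 4) : ℝ) / ((W k).Tmix (1 - 1 / 4) : ℝ) < 2 :=
      h.eventually (gt_mem_nhds (by norm_num))
    obtain ⟨k, hk⟩ := h2.exists
    obtain ⟨-, -, -, h1, h3, h4⟩ := hW k
    have e : (1 - 1 / 4 : ℝ) = 3 / 4 := by norm_num
    rw [e, div_lt_iff₀ (by exact_mod_cast h3)] at hk
    have h5 : (36 : ℝ) ≤ ((8 ^ (k + 6) * (k + 6) : ℕ) : ℝ) := by
      have : 36 ≤ 8 ^ (k + 6) * (k + 6) := by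
        have a1 : 8 ^ 6 ≤ 8 ^ (k + 6) := Nat.pow_le_pow_right (by norm_num) (by omega)
        have a2 : 6 ≤ k + 6 := by omega
        calc 36 ≤ 8 ^ 6 * 6 := by norm_num
          _ ≤ _ := Nat.mul_le_mul a1 a2
      exact_mod_cast this
    linarith

end Pool.Agent.Results.MP_7e070a_pr.CycleProductNoCutoff
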